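import Mathlib

/-! # Smooth domains over a field are normal; the algebraic Hartogs lemma -/

set_option autoImplicit false

namespace Pool.Agent.Helper38.SPV

open TensorProduct

/-- An etale domain over a normal domain is normal. -/
theorem normal_of_etale (R S : Type) [CommRing R] [IsDomain R] [IsIntegrallyClosed R]
    [CommRing S] [IsDomain S] [Algebra R S] [Algebra.Etale R S] : IsIntegrallyClosed S := by
  let K := FractionRing R
  have : Module.IsTorsionFree R S := inferInstance
  have hinj : Function.Injective (algebraMap R S) := FaithfulSMul.algebraMap_injective R S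
  have hloc : IsLocalization (Algebra.algebraMapSubmonoid S (nonZeroDivisors R)) (S ⊗[R] K) :=
    inferInstance
  have hle : Algebra.algebraMapSubmonoid S (nonZeroDivisors R) ≤ nonZeroDivisors S := by
    rintro _ ⟨r, hr, rfl⟩
    have hr' : r ≠ 0 := nonZeroDivisors.ne_zero hr
    rw [mem_nonZeroDivisors_iff_ne_zero]
    exact fun h => hr' (hinj (by rw [h, map_zero]))
  have hdom : IsDomain (S ⊗[R] K) := IsLocalization.isDomain_of_le_nonZeroDivisors (S ⊗[R] K) hle
  have e : (S ⊗[R] K) ≃+* (K ⊗[R] S) := (Algebra.TensorProduct.comm R S K).toRingEquiv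
  have hdom' : IsDomain (K ⊗[R] S) := MulEquiv.isDomain (S ⊗[R] K) e.symm.toMulEquiv
  have hfin : Module.Finite K (K ⊗[R] S) := Algebra.FormallyUnramified.finite_of_free K _
  have hfield' : IsField (K ⊗[R] S) :=
    isField_of_isIntegral_of_isField' (R := K) (Field.toIsField K)
  have hfield : IsField (S ⊗[R] K) := e.toMulEquiv.isField hfield'
  let _ : Field (S ⊗[R] K) := hfield.toField
  have hinjT : Function.Injective (algebraMap S (S ⊗[R] K)) :=
    IsLocalization.injective _ hle
  have : FaithfulSMul S (S ⊗[R] K) := (faithfulSMul_iff_algebraMap_injective _ _).2 hinjT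
  have hfrac : IsFractionRing S (S ⊗[R] K) := by
    apply IsFractionRing.of_field
    intro z
    obtain ⟨⟨s, t⟩, h⟩ := IsLocalization.surj
      (Algebra.algebraMapSubmonoid S (nonZeroDivisors R)) z
    refine ⟨s, t.1, ?_⟩
    have ht : algebraMap S (S ⊗[R] K) t.1 ≠ 0 := by
      have := nonZeroDivisors.ne_zero (hle t.2)
      exact fun h => this (hinjT (by rw [h, map_zero]))
    rw [eq_div_iff ht]
    exact h
  rw [isIntegrallyClosed_iff (S ⊗[R] K)]
  intro x hx
  obtain ⟨y, hy⟩ := (TensorProduct.toIntegralClosure_bijective_of_smooth (R := R) (S := S)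
    (B := K)).2 ⟨x, hx⟩
  have hxy : x = (TensorProduct.toIntegralClosure R S K y : S ⊗[R] K) := by rw [hy]
  rw [hxy]
  clear hxy hy hx x
  induction y with
  | zero => exact ⟨0, by simp⟩
  | add a b ha hb =>
    obtain ⟨a', ha⟩ := ha
    obtain ⟨b', hb⟩ := hb
    exact ⟨a' + b', by rw [map_add, ha, hb, map_add]; rfl⟩
  | tmul s c =>
    obtain ⟨r, hr⟩ := (isIntegrallyClosed_iff K).1 inferInstance c.2
    refine ⟨r • s, ?_⟩
    have h1 : (TensorProduct.toIntegralClosure R S K (s ⊗ₜ c) : S ⊗[R] K) = s ⊗ₜ (c : K) := by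
      simp [TensorProduct.toIntegralClosure]
    rw [h1, ← hr, Algebra.TensorProduct.algebraMap_apply, Algebra.algebraMap_self,
      RingHom.id_apply, TensorProduct.smul_tmul, Algebra.smul_def, mul_one]

/-- the denominators of an element of the fraction field -/
def HARTOGS_den {A K : Type} [CommRing A] [Field K] [Algebra A K] (y : K) : Ideal A where
  carrier := {t | ∃ r : A, algebraMap A K t * y = algebraMap A K r}
  add_mem' := by
    rintro a b ⟨r, hr⟩ ⟨r', hr'⟩
    exact ⟨r + r', by rw [map_add, add_mul, hr, hr', map_add]⟩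
  zero_mem' := ⟨0, by simp⟩
  smul_mem' := by
    rintro c a ⟨r, hr⟩
    exact ⟨c * r, by rw [smul_eq_mul, map_mul, mul_assoc, hr, map_mul]⟩

theorem HARTOGS_mem {A K : Type} [CommRing A] [Field K] [Algebra A K] {y : K} {t : A} :
    t ∈ HARTOGS_den (A := A) y ↔ ∃ r : A, algebraMap A K t * y = algebraMap A K r := Iff.rfl

/-- **Algebraic Hartogs lemma** -/
theorem hartogs (A K : Type) [CommRing A] [IsDomain A] [IsNoetherianRing A]
    [IsIntegrallyClosed A] [Field K] [Algebra A K] [IsFractionRing A K] (a : K)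
    (h : ∀ P : Ideal A, P.IsPrime → P.height = 1 →
      ∃ r s : A, s ∉ P ∧ algebraMap A K s * a = algebraMap A K r) :
    ∃ r : A, algebraMap A K r = a := by
  classical
  by_contra hcon
  have hinj := IsFractionRing.injective A K
  -- a maximal ideal of denominators
  let Fam : Set (Ideal A) := {I | ∃ r : A, I = HARTOGS_den (algebraMap A K r * a) ∧ (1 : A) ∉ I}
  have hne : Fam.Nonempty := by
    refine ⟨HARTOGS_den (algebraMap A K 1 * a), 1, rfl, ?_⟩
    rintro ⟨r, hr⟩
    apply hcon
    refine ⟨r, ?_⟩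
    rw [← hr]
    simp
  obtain ⟨P, ⟨r, hP, hP1⟩, hmax⟩ := WellFounded.has_min
    (IsWellFounded.wf : WellFounded ((· > ·) : Ideal A → Ideal A → Prop)) Fam hne
  set y : K := algebraMap A K r * a with hy
  have hPmem : ∀ t, t ∈ P ↔ ∃ r : A, algebraMap A K t * y = algebraMap A K r := by
    intro t
    rw [hP]
    exact HARTOGS_mem
  have hprime : P.IsPrime := by
    refine ⟨fun htop => hP1 (by rw [htop]; trivial), ?_⟩
    intro s t hst
    by_contra hcon2
    push Not at hcon2
    obtain ⟨hs, ht⟩ := hcon2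
    have h1 : HARTOGS_den (algebraMap A K (t * r) * a) ∈ Fam := by
      refine ⟨t * r, rfl, ?_⟩
      rintro ⟨c, hc⟩
      apply ht
      rw [hPmem]
      refine ⟨c, ?_⟩
      rw [← hc, hy, map_mul]
      simp [mul_assoc]
    have h2 : P < HARTOGS_den (algebraMap A K (t * r) * a) := by
      refine lt_of_le_of_ne ?_ ?_
      · intro u hu
        rw [hPmem] at hu
        obtain ⟨c, hc⟩ := hu
        refine ⟨t * c, ?_⟩
        rw [map_mul, map_mul, ← hc, hy]
        ring
      · intro heq
        apply hs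
        rw [heq]
        rw [hPmem] at hst
        obtain ⟨c, hc⟩ := hst
        refine ⟨c, ?_⟩
        rw [← hc, hy, map_mul, map_mul]
        ring
    exact hmax _ h1 h2
  have hbot : P ≠ ⊥ := by
    obtain ⟨c, d, hd, hcd⟩ := IsFractionRing.div_surjective (A := A) y
    intro hb
    have hd0 : d ≠ 0 := nonZeroDivisors.ne_zero hd
    have hdK : algebraMap A K d ≠ 0 := fun h => hd0 (hinj (by rw [h, map_zero]))
    have : d ∈ P := by
      rw [hPmem]
      refine ⟨c, ?_⟩
      rw [← hcd]
      field_simp
    rw [hb, Ideal.mem_bot] at this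
    exact hd0 this
  -- `y P` is not contained in `P`
  obtain ⟨t, htP, u, hu, huP⟩ : ∃ t ∈ P, ∃ u : A, algebraMap A K t * y = algebraMap A K u ∧
      u ∉ P := by
    by_contra hc
    push Not at hc
    have hint : IsIntegral A y := by
      refine isIntegral_of_smul_mem_submodule (M := K) (Submodule.map (Algebra.linearMap A K) P)
        ?_ ?_ y ?_
      · intro hb
        apply hbot
        rw [eq_bot_iff]
        intro t ht
        have : algebraMap A K t ∈ Submodule.map (Algebra.linearMap A K) P := ⟨t, ht, rfl⟩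
        rw [hb, Submodule.mem_bot] at this
        rw [Ideal.mem_bot]
        exact hinj (by rw [this, map_zero])
      · exact (IsNoetherian.noetherian P).map _
      · rintro _ ⟨t, ht, rfl⟩
        obtain ⟨c, hc'⟩ := (hPmem t).1 ht
        refine ⟨c, hc t ht c hc', ?_⟩
        rw [Algebra.linearMap_apply, Algebra.linearMap_apply, smul_eq_mul, ← hc', mul_comm]
    obtain ⟨c, hc'⟩ := (isIntegrallyClosed_iff K).1 inferInstance hint
    apply hP1
    rw [hPmem]
    exact ⟨c, by rw [map_one, one_mul, hc']⟩
  have hyt : ∀ q ∈ P, ∃ v : A, u * q = v * t := by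
    intro q hq
    obtain ⟨v, hv⟩ := (hPmem q).1 hq
    refine ⟨v, hinj ?_⟩
    rw [map_mul, map_mul, ← hu, ← hv]
    ring
  have hheight : P.height ≤ 1 := by
    apply Ideal.height_le_one_of_isPrincipal_of_mem_minimalPrimes (Ideal.span {t}) P
    refine ⟨⟨hprime, by rwa [Ideal.span_singleton_le_iff_mem]⟩, ?_⟩
    rintro Q ⟨hQ, hQt⟩ hQP
    rw [Ideal.span_singleton_le_iff_mem] at hQt
    intro q hq
    obtain ⟨v, hv⟩ := hyt q hq
    have h1 : u * q ∈ Q := by
      rw [hv]
      exact Q.mul_mem_left v hQt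
    rcases hQ.mem_or_mem h1 with h2 | h2
    · exact absurd (hQP h2) huP
    · exact h2
  have hheight1 : P.height = 1 := by
    refine le_antisymm hheight ?_
    rw [Order.one_le_iff_pos, pos_iff_ne_zero]
    intro h0
    exact hbot (Ideal.height_eq_zero_iff_eq_bot.1 h0)
  obtain ⟨c, s, hs, hsc⟩ := h P hprime hheight1
  apply hs
  rw [hPmem]
  refine ⟨r * c, ?_⟩
  rw [hy, map_mul, ← hsc]
  ring

end Pool.Agent.Helper38.SPV
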