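import Pool.Agent.Helper8.SPV.Stmts3
import Pool.Agent.Helper38.SPV.NORMAL

/-! # Module HARTOGS -/

set_option autoImplicit false

namespace Pool.Agent.Helper8.SPV

open AlgebraicGeometry CategoryTheory CategoryTheory.Limits

/-- every point of a smooth integral scheme over a field has an affine neighbourhood whose
coordinate ring is a noetherian normal domain -/
theorem HARTOGS_chart (k : Type) [Field k] (X : Scheme.{0}) [IsIntegral X]
    (s : X ⟶ Spec (.of k)) [Smooth s] (x : X) :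
    ∃ V : X.Opens, IsAffineOpen V ∧ x ∈ V ∧ IsDomain Γ(X, V) ∧ IsIntegrallyClosed Γ(X, V) ∧
      IsNoetherianRing Γ(X, V) := by
  obtain ⟨U, hU, V, hV, hxV, e, hst⟩ := Smooth.exists_isStandardSmooth s x
  have hUtop : U = ⊤ := by
    have hs : Subsingleton (Spec (.of k)) :=
      inferInstanceAs (Subsingleton (PrimeSpectrum k))
    rw [eq_top_iff]
    intro y _
    rw [Subsingleton.elim y (s x)]
    exact e hxV
  subst hUtop
  have : Nonempty V := ⟨⟨x, hxV⟩⟩
  have hdom : IsDomain Γ(X, V) := inferInstance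
  let ψ : k ≃+* Γ(Spec (.of k), ⊤) := (Scheme.ΓSpecIso (.of k)).symm.commRingCatIsoToRingEquiv
  have h1 : ((s.appLE ⊤ V e).hom.comp ψ.toRingHom).IsStandardSmooth :=
    RingHom.isStandardSmooth_respectsIso.2 _ _ hst
  obtain ⟨n, g, -, hg⟩ := RingHom.IsStandardSmooth.exists_etale_mvPolynomial h1
  algebraize [g]
  have h2 : IsIntegrallyClosed Γ(X, V) :=
    Pool.Agent.Helper38.SPV.normal_of_etale (MvPolynomial (Fin n) k) Γ(X, V)
  exact ⟨V, hV, hxV, hdom, h2, Algebra.FiniteType.isNoetherianRing (MvPolynomial (Fin n) k) _⟩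

/-- the stalks are noetherian normal domains -/
theorem HARTOGS_stalk (k : Type) [Field k] (X : Scheme.{0}) [IsIntegral X]
    (s : X ⟶ Spec (.of k)) [Smooth s] (x : X) :
    IsDomain (X.presheaf.stalk x) ∧ IsIntegrallyClosed (X.presheaf.stalk x) ∧
      IsNoetherianRing (X.presheaf.stalk x) := by
  obtain ⟨V, hV, hxV, h1, h2, h3⟩ := HARTOGS_chart k X s x
  have hloc := hV.isLocalization_stalk ⟨x, hxV⟩
  let _ := (X.presheaf.algebra_section_stalk (⟨x, hxV⟩ : V))
  refine ⟨inferInstance, ?_, ?_⟩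
  · exact isIntegrallyClosed_of_isLocalization _ (hV.primeIdealOf ⟨x, hxV⟩).asIdeal.primeCompl
      (Ideal.primeCompl_le_nonZeroDivisors _)
  · exact IsLocalization.isNoetherianRing (hV.primeIdealOf ⟨x, hxV⟩).asIdeal.primeCompl _ h3

theorem st_HARTOGS : ST_HARTOGS := by
  intro k _ _ X _ s _ x a h
  obtain ⟨V, hV, hxV, h1, h2, h3⟩ := HARTOGS_chart k X s x
  have hloc := hV.isLocalization_stalk ⟨x, hxV⟩
  let _ := (X.presheaf.algebra_section_stalk (⟨x, hxV⟩ : V))
  obtain ⟨hA1, hA2, hA3⟩ := HARTOGS_stalk k X s x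
  have : Nonempty V := ⟨⟨x, hxV⟩⟩
  refine Pool.Agent.Helper38.SPV.hartogs (X.presheaf.stalk x) X.functionField a ?_
  intro P hP hP1
  let P' : Ideal Γ(X, V) := P.comap (algebraMap Γ(X, V) (X.presheaf.stalk x))
  have hP' : P'.IsPrime := hP.comap _
  have hle : P' ≤ (hV.primeIdealOf ⟨x, hxV⟩).asIdeal := by
    intro t ht
    by_contra hc
    have hu := IsLocalization.map_units (X.presheaf.stalk x)
      (⟨t, hc⟩ : (hV.primeIdealOf ⟨x, hxV⟩).asIdeal.primeCompl)
    exact hP.ne_top (Ideal.eq_top_of_isUnit_mem _ ht hu)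
  have hheight : P'.height = 1 := by
    rw [← hP1]
    exact IsLocalization.height_under (hV.primeIdealOf ⟨x, hxV⟩).asIdeal.primeCompl P
  let q : PrimeSpectrum Γ(X, V) := ⟨P', hP'⟩
  have hyV : hV.fromSpec q ∈ V := by
    have := Set.mem_range_self (f := hV.fromSpec) q
    rw [hV.range_fromSpec] at this
    exact this
  have hspec : hV.fromSpec q ⤳ x := by
    have h4 : q ⤳ hV.primeIdealOf ⟨x, hxV⟩ := (PrimeSpectrum.le_iff_specializes _ _).1 hle
    have h5 := h4.map hV.fromSpec.continuous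
    rwa [hV.fromSpec_primeIdealOf ⟨x, hxV⟩] at h5
  let _ := (X.presheaf.algebra_section_stalk (⟨hV.fromSpec q, hyV⟩ : V))
  have hlocy : IsLocalization.AtPrime (X.presheaf.stalk (hV.fromSpec q)) q.asIdeal :=
    hV.isLocalization_stalk' q hyV
  have hdim : ringKrullDim (X.presheaf.stalk (hV.fromSpec q)) = 1 := by
    have h6 : ringKrullDim (X.presheaf.stalk (hV.fromSpec q)) = q.asIdeal.height :=
      IsLocalization.AtPrime.ringKrullDim_eq_height q.asIdeal _
    rw [h6]
    have : q.asIdeal.height = 1 := hheight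
    rw [this]
    rfl
  obtain ⟨b, hb⟩ := h _ hspec hdim
  obtain ⟨⟨r, t⟩, hrt⟩ := IsLocalization.surj q.asIdeal.primeCompl b
  refine ⟨algebraMap Γ(X, V) (X.presheaf.stalk x) r, algebraMap Γ(X, V) (X.presheaf.stalk x) t.1,
    t.2, ?_⟩
  have e1 : ∀ c : Γ(X, V), algebraMap (X.presheaf.stalk x) X.functionField
      (algebraMap Γ(X, V) (X.presheaf.stalk x) c) =
      algebraMap (X.presheaf.stalk (hV.fromSpec q)) X.functionField
        (algebraMap Γ(X, V) (X.presheaf.stalk (hV.fromSpec q)) c) := by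
    intro c
    have t1 : IsScalarTower Γ(X, V) (X.presheaf.stalk x) X.functionField :=
      functionField_isScalarTower X V ⟨x, hxV⟩
    have t2 : IsScalarTower Γ(X, V) (X.presheaf.stalk (hV.fromSpec q)) X.functionField :=
      functionField_isScalarTower X V ⟨hV.fromSpec q, hyV⟩
    rw [← t1.algebraMap_apply, ← t2.algebraMap_apply]
  rw [e1, e1, ← hrt, map_mul, mul_comm]
  congr 1
  exact hb.symm

end Pool.Agent.Helper8.SPV
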